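import Pool.Agent.Helper70.MM.Goals

set_option autoImplicit false

open MeasureTheory Set Metric
open scoped ENNReal
open Pool.Agent.Results.MP_91ee6f_gt
open Pool.Agent.Helper70.MM

namespace Pool.Agent.Helper83.MM

theorem energy_eq (h2 : SPH2) (hM : MINP) {n : ℕ} (hn : 1 ≤ n) {R : ℝ} (hR : 0 < R)
    (e : En n) (he : ‖e‖ = 1) :
    sphEnergy n R = ∫ y, Real.exp (-(R * dist e y)) ∂(sphUnif n 1) := by
  have h1 : ‖R • e‖ = R := by rw [norm_smul, he, mul_one, Real.norm_of_nonneg hR.le]
  rw [← (hM n hn R hR).2.1 (R • e) h1]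
  have h3 := (h2 n 1).2 R
  rw [mul_one] at h3
  rw [← h3]
  unfold potential
  rw [integral_map (by fun_prop) (by
    refine Continuous.aestronglyMeasurable ?_
    fun_prop)]
  refine integral_congr_ae (Filter.Eventually.of_forall fun y => ?_)
  simp only
  rw [dist_smul₀, Real.norm_of_nonneg hR.le]

theorem th1 : SPH1 → SPH2 → MINP → TH1 := by
  intro hS1 hS2 hM n hn R R₁ hR hRR h
  obtain ⟨m, rfl⟩ : ∃ m, n = m + 1 := ⟨n - 1, by omega⟩
  have hR₁ : 0 < R₁ := lt_of_lt_of_le hR hRR
  let e : En (m + 1) := EuclideanSpace.single 0 1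
  have he : ‖e‖ = 1 := by simp [e]
  have hP : IsProbabilityMeasure (sphUnif (m + 1) 1) := (hS1 (m + 1) hn 1).1
  rw [energy_eq hS2 hM hn hR e he]
  rw [energy_eq hS2 hM hn hR₁ e he] at h
  have hp0 : 0 ≤ R / R₁ := by positivity
  have hp1 : R / R₁ ≤ 1 := (div_le_one hR₁).2 hRR
  have hint : ∀ S : ℝ, 0 < S → Integrable (fun y => Real.exp (-(S * dist e y)))
      (sphUnif (m + 1) 1) := by
    intro S hS
    refine Integrable.of_bound (C := 1) ?_ ?_
    · refine Continuous.aestronglyMeasurable ?_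
      fun_prop
    · refine Filter.Eventually.of_forall fun y => ?_
      rw [Real.norm_of_nonneg (Real.exp_pos _).le]
      refine Real.exp_le_one_iff.2 ?_
      have : 0 ≤ S * dist e y := mul_nonneg hS.le dist_nonneg
      linarith
  have hcomp : ∀ y : En (m + 1), (Real.exp (-(R₁ * dist e y))) ^ (R / R₁) =
      Real.exp (-(R * dist e y)) := by
    intro y
    rw [← Real.exp_mul]
    congr 1
    field_simp
  have hJ := ConcaveOn.le_map_integral (μ := sphUnif (m + 1) 1)
    (f := fun y => Real.exp (-(R₁ * dist e y)))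
    (Real.concaveOn_rpow hp0 hp1)
    (continuousOn_id.rpow_const fun _ _ => Or.inr hp0) isClosed_Ici
    (Filter.Eventually.of_forall fun y => (Real.exp_pos _).le) (hint R₁ hR₁)
    (by
      refine (hint R hR).congr (Filter.Eventually.of_forall fun y => ?_)
      exact (hcomp y).symm)
  calc ∫ y, Real.exp (-(R * dist e y)) ∂(sphUnif (m + 1) 1)
      = ∫ y, (Real.exp (-(R₁ * dist e y))) ^ (R / R₁) ∂(sphUnif (m + 1) 1) := by
        refine integral_congr_ae (Filter.Eventually.of_forall fun y => ?_)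
        exact (hcomp y).symm
    _ ≤ (∫ y, Real.exp (-(R₁ * dist e y)) ∂(sphUnif (m + 1) 1)) ^ (R / R₁) := hJ
    _ ≤ (Real.exp (-R₁)) ^ (R / R₁) := by
        refine Real.rpow_le_rpow ?_ h hp0
        exact integral_nonneg fun y => (Real.exp_pos _).le
    _ = Real.exp (-R) := by
        rw [← Real.exp_mul]
        congr 1
        field_simp

end Pool.Agent.Helper83.MM
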